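import Pool.Agent.H609R2.CisMem

/-!
# Recognizing CIS graphs is coNP-complete

The decision problem CIS RECOGNITION has as input a finite simple graph, given by an adjacency
matrix `M : List (List Bool)`; `matGraph M` is the graph.  The question is whether every maximal
clique meets every maximal stable set.  It is `coNP`-complete under polynomial-time many-one
reductions.

Reduction from the complement of 3SAT.  The vertices are the pairs `(i, a)`, meaning that the
variable `i` has the value `a`, and the triples `(i, k, b)` such that the value `b` of the variable
`i` does not satisfy the clause `k`, meaning that the clause `k` is falsified and the variable `i`
has the value `b`; adjacency is contradiction (in particular triples with different `k` are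
adjacent).  If the formula is unsatisfiable then the maximal stable sets are the pairs of an
assignment and a clause falsified by it, and every maximal clique meets all of them.  If it is
satisfiable then a satisfying assignment is a maximal stable set missing a maximal clique, formed
by the other value of a dummy variable and the triples with its given value.
-/

namespace Pool.Agent.Results.MP_bb030f_lc.CISCoNPComplete

open Pool.Agent.NPC Pool.Agent.H622R2 Pool.Agent.H609R2

/-- CIS RECOGNITION is `coNP`-complete under polynomial-time many-one reductions. -/
theorem result : InCoNPP (fun M : List (List Bool) => IsCIS (matGraph M)) ∧
    CoNPHardP (fun M : List (List Bool) => IsCIS (matGraph M)) :=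
  ⟨inCoNPP_cis, hardI_not_cis.toCoNPHardP⟩

end Pool.Agent.Results.MP_bb030f_lc.CISCoNPComplete
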